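import Pool.Agent.SP74.Main

/-!
# Unique continuation fails for nearly integral stationary varifolds

The varifold is a truss: flat strips over the segments of an infinite network in the plane of the
first horizontal and the first vertical coordinate, times the other horizontal directions.
-/

set_option autoImplicit false

open MeasureTheory Set Pool.Agent.SP74

/-- For all dimensions `m + 1` and codimensions `n + 1` and every positive monotone function `ω`
there is a stationary varifold in the unit ball, made of countably many flat pieces of dimension
`m + 1`, with multiplicity at least one and, in the ball of radius `r`, within `ω r` of positive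
integers, whose heights, tilts and contact integral with the horizontal plane in the ball of radius
`r` are at most `ω r`, and which has mass off the horizontal plane in every ball around `0`. -/
theorem Pool.Agent.Results.MP_493254_an.NearlyIntegral.result
    (m n : ℕ) (ω : ℝ → ℝ) (hmono : Monotone ω) (hpos : ∀ r, 0 < r → 0 < ω r) :
    ∃ (ι : Type) (_ : Countable ι) (V : ι → Flat (m + 1) (E m n)),
      StationaryIn (Metric.ball 0 1) V ∧ LocFinite V ∧
      ∀ r, 0 < r → r ≤ 1 → NearInt V r (ω r) ∧ NearPlane V r (ω r) ∧
        contactInt V r ≤ ENNReal.ofReal (ω r) ∧ 0 < offMass V r :=
  main m n ω hmono hpos
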