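import Pool.Agent.VREX.Plane
import Pool.Agent.VREX.Contact

/-!
# Stationary integral varifolds of revolution
-/

open MeasureTheory Set Filter Topology
open scoped RealInnerProductSpace ENNReal

noncomputable section

namespace Pool.Agent.Results.MP_493254_an.Revolution

open Pool.Agent.VREV

variable {n : ℕ}

/-- the squared height is automatically of order `o(ρ ^ (p + 3))` in the mean -/
lemma auto_contact (p : ℕ) (hp : 1 ≤ p) (V : ℕ → Piece n) {δ : ℝ} (hδ : 0 < δ)
    (hstat : StationaryIn p V δ) (hfin : wt p V {q | sq V q < δ ^ 2} ≠ ∞) {ε : ℝ} (hε : 0 < ε) :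
    ∃ ρ₀ > 0, ∀ ρ, 0 < ρ → ρ < ρ₀ → Ct p V (ρ ^ 2) ≤ ENNReal.ofReal (ε * ρ ^ (p + 3)) := by
  set b : ℝ := δ ^ 2 / 2 with hbd
  have hb0 : 0 < b := by positivity
  have hb : b < δ ^ 2 := by rw [hbd]; exact half_lt_self (by positivity)
  set β : ℝ := ((p : ℝ) + 1) / 2 with hβ
  have hβ0 : 0 < β := by positivity
  have hp0 : (0 : ℝ) < p := by exact_mod_cast hp
  set T : ℝ := (Th p V b).toReal with hT
  have hT0 : 0 ≤ T := ENNReal.toReal_nonneg
  have hTb : Th p V b = ENNReal.ofReal T := (ENNReal.ofReal_toReal (Th_ne_top p V hfin hb.le)).symm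
  set ε' : ℝ := ε * p / (56 * 2 ^ β) with hε'
  have h2β : (0 : ℝ) < 2 ^ β := by positivity
  have hε'0 : 0 < ε' := by positivity
  set lam : ℝ := ε' / (T + 1) with hlam
  have hlam0 : 0 < lam := by positivity
  obtain ⟨v₀, hv00, hv0b, hv0⟩ := near_inf p V hb0 hb hstat hfin (η := lam ^ 2) (by positivity)
  refine ⟨√(v₀ / 2), Real.sqrt_pos.2 (by positivity), fun ρ hρ hρ0 => ?_⟩
  set a : ℝ := ρ ^ 2 with ha
  have ha0 : 0 < a := by positivity
  have hav : 2 * a < v₀ := by
    have h1 : ρ ^ 2 < v₀ / 2 := by rw [← Real.lt_sqrt hρ.le]; exact hρ0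
    rw [ha]; linarith
  have h2ab : 2 * a < b := hav.trans hv0b
  have h2a : 2 * a < δ ^ 2 := h2ab.trans hb
  -- the excess is small
  have hEx : Ex0 p V (2 * a) ≤ ENNReal.ofReal (lam ^ 2) := by
    refine Ex0_le p V (by positivity) _ fun a' ha' haa => ?_
    have h1 := Th_add p V (a := a') (b := 2 * a) h2a hstat hfin ha' haa
    have h2 : Th p V a' + ENNReal.ofReal ((p : ℝ) + 1) * Ex p V a' (2 * a) ≤
        Th p V a' + ENNReal.ofReal (lam ^ 2) := by
      rw [h1]
      exact (hv0 _ (by linarith) hav.le).le.trans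
        (add_le_add (K0_le p V ha' (by linarith)) le_rfl)
    have h3 := (ENNReal.add_le_add_iff_left
      (Th_ne_top p V hfin (v := a') (by linarith))).1 h2
    refine le_trans ?_ h3
    have : (1 : ℝ≥0∞) ≤ ENNReal.ofReal ((p : ℝ) + 1) := by
      rw [ENNReal.one_le_ofReal]; linarith
    calc Ex p V a' (2 * a) = 1 * Ex p V a' (2 * a) := (one_mul _).symm
      _ ≤ _ := mul_le_mul' this le_rfl
  -- the mass
  set S : Set (ℕ × ℝ) := {q | sq V q < 2 * a} with hS
  have hSm : MeasurableSet S := measurableSet_lt (meas_sq V) measurable_const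
  have hSf : wt p V S ≠ ∞ := ne_top_of_le_ne_top hfin (measure_mono fun q hq => lt_trans hq h2a)
  have hμf : IsFiniteMeasure ((wt p V).restrict S) :=
    ⟨by rw [Measure.restrict_apply_univ]; exact hSf.lt_top⟩
  have hU0 : ∀ q : ℕ × ℝ, 0 ≤ Pool.Agent.VREV.sq V q := fun q => by
    rw [Pool.Agent.VREV.sq]; positivity
  have h2aβ : 0 < (2 * a) ^ β := Real.rpow_pos_of_pos (by positivity) _
  have hmass : (wt p V).real S ≤ (2 * a) ^ β * T := by
    have h1 := Th_mono p V hb hstat hfin (a := 2 * a) (by positivity) h2ab.le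
    rw [hTb, Th] at h1
    have h2 : wt p V S ≤ ENNReal.ofReal ((2 * a) ^ β * T) := by
      have h3 : (1 : ℝ≥0∞) ≤ ENNReal.ofReal ((p : ℝ) + 1) := by
        rw [ENNReal.one_le_ofReal]; linarith
      have h4 : ENNReal.ofReal ((2 * a) ^ (-β)) * wt p V S ≤ ENNReal.ofReal T := by
        refine le_trans (mul_le_mul' le_rfl ?_) h1
        calc wt p V S = 1 * wt p V S := (one_mul _).symm
          _ ≤ _ := mul_le_mul' h3 le_rfl
      calc wt p V S = ENNReal.ofReal ((2 * a) ^ β) * (ENNReal.ofReal ((2 * a) ^ (-β)) *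
            wt p V S) := by
            rw [← mul_assoc, ← ENNReal.ofReal_mul h2aβ.le, ← Real.rpow_add (by positivity),
              add_neg_cancel, Real.rpow_zero, ENNReal.ofReal_one, one_mul]
        _ ≤ ENNReal.ofReal ((2 * a) ^ β) * ENNReal.ofReal T := mul_le_mul' le_rfl h4
        _ = _ := (ENNReal.ofReal_mul h2aβ.le).symm
    exact ENNReal.toReal_le_of_le_ofReal (by positivity) h2
  -- the integral of the normal part
  have hnu : ∫ q in S, (1 - kap V q ^ 2 / Pool.Agent.VREV.sq V q) ∂(wt p V) ≤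
      (2 * a) ^ β * lam ^ 2 := by
    have hν0 : ∀ q : ℕ × ℝ, 0 ≤ 1 - kap V q ^ 2 / Pool.Agent.VREV.sq V q := fun q => by
      have := div_le_one_of_le₀ (kap_sq_le V q) (hU0 q)
      linarith
    rw [integral_eq_lintegral_of_nonneg_ae (Eventually.of_forall hν0) (measurable_const.sub
      (((meas_kap V).pow_const 2).div (meas_sq V))).aestronglyMeasurable]
    refine ENNReal.toReal_le_of_le_ofReal (by positivity) ?_
    refine (nu_le p V (by positivity : 0 < 2 * a)).trans ?_
    rw [ENNReal.ofReal_mul h2aβ.le]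
    exact mul_le_mul' le_rfl hEx
  have key := contact_est p V ha0 h2a hstat hfin hlam0
  have hφi : Integrable (fun q => phi a (Pool.Agent.VREV.sq V q) * ‖(V q.1).ht q.2‖ ^ 2)
      ((wt p V).restrict S) := by
    refine Integrable.of_bound (C := 4 * (2 * a)) (((phi_cont a).measurable.comp (meas_sq V)).mul
      ((meas_ht V).norm.pow_const 2)).aestronglyMeasurable ?_
    filter_upwards [ae_restrict_mem hSm] with q hq
    have hy : ‖(V q.1).ht q.2‖ ^ 2 ≤ Pool.Agent.VREV.sq V q := by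
      rw [Pool.Agent.VREV.sq]; nlinarith [_root_.sq_nonneg ((V q.1).rad q.2)]
    rw [norm_mul, Real.norm_of_nonneg (phi_nonneg _ _), Real.norm_of_nonneg (_root_.sq_nonneg _)]
    exact mul_le_mul (phi_le ha0 (hU0 q)) (hy.trans (le_of_lt hq)) (by positivity) (by norm_num)
  have hCt : Ct p V a ≤ ENNReal.ofReal
      (∫ q in S, phi a (Pool.Agent.VREV.sq V q) * ‖(V q.1).ht q.2‖ ^ 2 ∂(wt p V)) := by
    rw [ofReal_integral_eq_lintegral_ofReal hφi (Eventually.of_forall fun q =>
      mul_nonneg (phi_nonneg _ _) (_root_.sq_nonneg _)), Ct]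
    calc ∫⁻ q in {q | Pool.Agent.VREV.sq V q < a}, ENNReal.ofReal (‖(V q.1).ht q.2‖ ^ 2) ∂(wt p V) ≤
        ∫⁻ q in {q | Pool.Agent.VREV.sq V q < a}, ENNReal.ofReal
          (phi a (Pool.Agent.VREV.sq V q) * ‖(V q.1).ht q.2‖ ^ 2) ∂(wt p V) := by
          refine setLIntegral_mono' (measurableSet_lt (meas_sq V) measurable_const)
            fun q hq => ENNReal.ofReal_le_ofReal ?_
          exact le_mul_of_one_le_left (_root_.sq_nonneg _) (one_le_phi ha0 (le_of_lt hq))
      _ ≤ _ := lintegral_mono_set fun q (hq : Pool.Agent.VREV.sq V q < a) =>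
          (show Pool.Agent.VREV.sq V q < 2 * a by linarith)
  refine hCt.trans (ENNReal.ofReal_le_ofReal ?_)
  -- the constants
  have h2aβ' : (2 * a) ^ β = 2 ^ β * ρ ^ (p + 1) := by
    rw [Real.mul_rpow (by norm_num) ha0.le]
    congr 1
    have h1 := rpow_half p (U := ρ ^ 2) (by positivity)
    rw [Real.sqrt_sq hρ.le, Real.rpow_neg (by positivity), inv_inj] at h1
    exact h1
  have e1 : lam * (wt p V).real S + (∫ q in S, (1 - kap V q ^ 2 / Pool.Agent.VREV.sq V q)
      ∂(wt p V)) / lam ≤ (2 * a) ^ β * ε' := by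
    have h1 : lam * (wt p V).real S ≤ lam * ((2 * a) ^ β * T) :=
      mul_le_mul_of_nonneg_left hmass hlam0.le
    have h2 : (∫ q in S, (1 - kap V q ^ 2 / Pool.Agent.VREV.sq V q) ∂(wt p V)) / lam ≤
        ((2 * a) ^ β * lam ^ 2) / lam := div_le_div_of_nonneg_right hnu hlam0.le
    have h3 : ((2 * a) ^ β * lam ^ 2) / lam = (2 * a) ^ β * lam := by field_simp
    have h4 : lam * (T + 1) = ε' := by rw [hlam]; field_simp
    calc _ ≤ lam * ((2 * a) ^ β * T) + (2 * a) ^ β * lam := by rw [← h3]; exact add_le_add h1 h2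
      _ = (2 * a) ^ β * (lam * (T + 1)) := by ring
      _ = _ := by rw [h4]
  have e2 : 56 * a * ((2 * a) ^ β * ε') = p * (ε * ρ ^ (p + 3)) := by
    rw [h2aβ', hε', ha]
    field_simp
    ring
  have e3 := key.trans (mul_le_mul_of_nonneg_left e1 (by positivity : (0:ℝ) ≤ 56 * a))
  rw [e2] at e3
  exact le_of_mul_le_mul_left e3 hp0

/-- Let `V` be an integral varifold of revolution about `0`, of dimension `p + 1 ≥ 2`, which is
stationary and of finite mass in the ball of radius `δ` about `0`. Then near `0` it is contained in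
the plane orthogonal to the axis. -/
theorem result (p n : ℕ) (hp : 1 ≤ p) (V : ℕ → Piece n) (δ : ℝ) (hδ : 0 < δ)
    (hstat : StationaryIn p V δ) (hfin : wt p V {q | sq V q < δ ^ 2} < ∞) :
    ∃ ρ > 0, ∀ᵐ q ∂(wt p V), sq V q < ρ ^ 2 → (V q.1).ht q.2 = 0 := by
  refine of_contact p n V δ hδ hstat hfin fun ε hε => ?_
  obtain ⟨ρ₀, hρ0, h⟩ := auto_contact p hp V hδ hstat hfin.ne hε
  refine Eventually.frequently ?_
  filter_upwards [Ioo_mem_nhdsGT hρ0] with ρ hρ
  exact h ρ hρ.1 hρ.2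

end Pool.Agent.Results.MP_493254_an.Revolution
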